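import Mathlib
import Pool.Agent.Lib.MP_71d90a_co.Defs
import Pool.Agent.Lib.MP_71d90a_co.Below1

namespace Pool.Agent.Results.MP_71d90a_co.BelowGupta

open Pool.Agent.Lib.MP_71d90a_co

/-- a cycle of length 17 for 6 letters -/
def w6 : List (Fin 6) := [0, 3, 5, 2, 4, 1, 3, 5, 2, 0, 1, 4, 2, 5, 3, 1, 4]

/-- a cycle of length 31 for 8 letters -/
def w8 : List (Fin 8) := [0, 4, 6, 2, 7, 5, 3, 1, 0, 4, 6, 7, 2, 3, 5, 7, 2, 6, 4, 0, 1, 7, 5, 3,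
  2, 6, 4, 7, 5, 3, 1]

/-- a cycle of length 39 for 9 letters -/
def w9 : List (Fin 9) := [0, 4, 8, 6, 2, 5, 3, 1, 7, 4, 0, 8, 6, 1, 7, 3, 5, 2, 8, 6, 0, 4, 7, 1,
  3, 5, 2, 6, 8, 4, 0, 7, 2, 5, 3, 1, 6, 8, 7]

lemma u6 : IsUniversal w6 := by
  refine universal_of_cov w6 [1, 2, 3, 4, 5]
    [[3, 5, 2, 4, 1, 3, 5, 2, 0, 1, 4, 2, 5, 3, 1, 4],
     [1, 4, 2, 5, 3, 1, 4, 0, 3, 5, 2, 4, 1, 3, 5, 2]]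
    (by decide) (by decide) (by decide +kernel) (cov_of_bChk _ _ ?_)
  show bChk 5 _ _ = true
  decide +kernel

lemma u8 : IsUniversal w8 := by
  refine universal_of_cov w8 [1, 2, 3, 4, 5, 6, 7]
    [[4, 6, 2, 7, 5, 3, 1, 0, 4, 6, 7, 2, 3, 5, 7, 2, 6, 4, 0, 1, 7, 5, 3, 2, 6, 4, 7, 5,
      3, 1],
     [4, 6, 7, 2, 3, 5, 7, 2, 6, 4, 0, 1, 7, 5, 3, 2, 6, 4, 7, 5, 3, 1, 0, 4, 6, 2, 7, 5,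
      3, 1],
     [1, 7, 5, 3, 2, 6, 4, 7, 5, 3, 1, 0, 4, 6, 2, 7, 5, 3, 1, 0, 4, 6, 7, 2, 3, 5, 7, 2,
      6, 4]]
    (by decide) (by decide) (by decide +kernel) (cov_of_bChk _ _ ?_)
  show bChk 7 _ _ = true
  decide +kernel

lemma c9_1 : Cov [2, 3, 4, 5, 6, 7, 8]
    [[7, 4, 0, 8, 6, 1, 7, 3, 5, 2, 8, 6, 0, 4, 7, 1, 3, 5, 2, 6, 8, 4, 0, 7, 2, 5, 3, 1,
      6, 8, 7],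
     [7, 3, 5, 2, 8, 6, 0, 4, 7, 1, 3, 5, 2, 6, 8, 4, 0, 7, 2, 5, 3, 1, 6, 8, 7, 0, 4, 8,
      6, 2, 5, 3, 1, 7, 4],
     [3, 5, 2, 6, 8, 4, 0, 7, 2, 5, 3, 1, 6, 8, 7, 0, 4, 8, 6, 2, 5, 3, 1, 7, 4, 0, 8, 6,
      1, 7, 3, 5, 2, 8, 6],
     [6, 8, 7, 0, 4, 8, 6, 2, 5, 3, 1, 7, 4, 0, 8, 6, 1, 7, 3, 5, 2, 8, 6, 0, 4, 7, 1, 3,
      5, 2, 6, 8, 4]] := by
  apply cov_of_bChk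
  show bChk 7 _ _ = true
  decide +kernel

lemma c9_2 : Cov [1, 3, 4, 5, 6, 7, 8]
    [[5, 3, 1, 7, 4, 0, 8, 6, 1, 7, 3, 5, 2, 8, 6, 0, 4, 7, 1, 3, 5, 2, 6, 8, 4, 0, 7, 2,
      5, 3, 1, 6, 8, 7],
     [8, 6, 0, 4, 7, 1, 3, 5, 2, 6, 8, 4, 0, 7, 2, 5, 3, 1, 6, 8, 7, 0, 4, 8, 6, 2, 5, 3,
      1, 7, 4],
     [6, 8, 4, 0, 7, 2, 5, 3, 1, 6, 8, 7, 0, 4, 8, 6, 2, 5, 3, 1, 7, 4, 0, 8, 6, 1, 7, 3,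
      5, 2, 8, 6],
     [5, 3, 1, 6, 8, 7, 0, 4, 8, 6, 2, 5, 3, 1, 7, 4, 0, 8, 6, 1, 7, 3, 5, 2, 8, 6, 0, 4,
      7, 1, 3, 5, 2, 6, 8, 4]] := by
  apply cov_of_bChk
  show bChk 7 _ _ = true
  decide +kernel

lemma c9_3 : Cov [1, 2, 4, 5, 6, 7, 8]
    [[1, 7, 4, 0, 8, 6, 1, 7, 3, 5, 2, 8, 6, 0, 4, 7, 1, 3, 5, 2, 6, 8, 4, 0, 7, 2, 5, 3,
      1, 6, 8, 7],
     [5, 2, 8, 6, 0, 4, 7, 1, 3, 5, 2, 6, 8, 4, 0, 7, 2, 5, 3, 1, 6, 8, 7, 0, 4, 8, 6, 2,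
      5, 3, 1, 7, 4],
     [5, 2, 6, 8, 4, 0, 7, 2, 5, 3, 1, 6, 8, 7, 0, 4, 8, 6, 2, 5, 3, 1, 7, 4, 0, 8, 6, 1,
      7, 3, 5, 2, 8, 6],
     [1, 6, 8, 7, 0, 4, 8, 6, 2, 5, 3, 1, 7, 4, 0, 8, 6, 1, 7, 3, 5, 2, 8, 6, 0, 4, 7, 1,
      3, 5, 2, 6, 8, 4]] := by
  apply cov_of_bChk
  show bChk 7 _ _ = true
  decide +kernel

lemma c9_4 : Cov [1, 2, 3, 5, 6, 7, 8]
    [[8, 6, 2, 5, 3, 1, 7, 4, 0, 8, 6, 1, 7, 3, 5, 2, 8, 6, 0, 4, 7, 1, 3, 5, 2, 6, 8, 4,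
      0, 7, 2, 5, 3, 1, 6, 8, 7],
     [7, 1, 3, 5, 2, 6, 8, 4, 0, 7, 2, 5, 3, 1, 6, 8, 7, 0, 4, 8, 6, 2, 5, 3, 1, 7, 4],
     [7, 1, 3, 5, 2, 6, 8, 4, 0, 7, 2, 5, 3, 1, 6, 8, 7, 0, 4, 8, 6, 2, 5, 3, 1, 7, 4, 0,
      8, 6, 1, 7, 3, 5, 2, 8, 6],
     [8, 6, 2, 5, 3, 1, 7, 4, 0, 8, 6, 1, 7, 3, 5, 2, 8, 6, 0, 4, 7, 1, 3, 5, 2, 6, 8, 4]] := by
  apply cov_of_bChk
  show bChk 7 _ _ = true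
  decide +kernel

lemma c9_5 : Cov [1, 2, 3, 4, 6, 7, 8]
    [[3, 1, 7, 4, 0, 8, 6, 1, 7, 3, 5, 2, 8, 6, 0, 4, 7, 1, 3, 5, 2, 6, 8, 4, 0, 7, 2, 5,
      3, 1, 6, 8, 7],
     [2, 8, 6, 0, 4, 7, 1, 3, 5, 2, 6, 8, 4, 0, 7, 2, 5, 3, 1, 6, 8, 7, 0, 4, 8, 6, 2, 5,
      3, 1, 7, 4],
     [2, 6, 8, 4, 0, 7, 2, 5, 3, 1, 6, 8, 7, 0, 4, 8, 6, 2, 5, 3, 1, 7, 4, 0, 8, 6, 1, 7,
      3, 5, 2, 8, 6],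
     [3, 1, 6, 8, 7, 0, 4, 8, 6, 2, 5, 3, 1, 7, 4, 0, 8, 6, 1, 7, 3, 5, 2, 8, 6, 0, 4, 7,
      1, 3, 5, 2, 6, 8, 4]] := by
  apply cov_of_bChk
  show bChk 7 _ _ = true
  decide +kernel

lemma c9_6 : Cov [1, 2, 3, 4, 5, 7, 8]
    [[2, 5, 3, 1, 7, 4, 0, 8, 6, 1, 7, 3, 5, 2, 8, 6, 0, 4, 7, 1, 3, 5, 2, 6, 8, 4, 0, 7,
      2, 5, 3, 1, 6, 8, 7],
     [1, 7, 3, 5, 2, 8, 6, 0, 4, 7, 1, 3, 5, 2, 6, 8, 4, 0, 7, 2, 5, 3, 1, 6, 8, 7, 0, 4,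
      8, 6, 2, 5, 3, 1, 7, 4],
     [8, 4, 0, 7, 2, 5, 3, 1, 6, 8, 7, 0, 4, 8, 6, 2, 5, 3, 1, 7, 4, 0, 8, 6, 1, 7, 3, 5,
      2, 8, 6],
     [8, 7, 0, 4, 8, 6, 2, 5, 3, 1, 7, 4, 0, 8, 6, 1, 7, 3, 5, 2, 8, 6, 0, 4, 7, 1, 3, 5,
      2, 6, 8, 4]] := by
  apply cov_of_bChk
  show bChk 7 _ _ = true
  decide +kernel

lemma c9_7 : Cov [1, 2, 3, 4, 5, 6, 8]
    [[4, 0, 8, 6, 1, 7, 3, 5, 2, 8, 6, 0, 4, 7, 1, 3, 5, 2, 6, 8, 4, 0, 7, 2, 5, 3, 1, 6,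
      8, 7],
     [3, 5, 2, 8, 6, 0, 4, 7, 1, 3, 5, 2, 6, 8, 4, 0, 7, 2, 5, 3, 1, 6, 8, 7, 0, 4, 8, 6,
      2, 5, 3, 1, 7, 4],
     [1, 3, 5, 2, 6, 8, 4, 0, 7, 2, 5, 3, 1, 6, 8, 7, 0, 4, 8, 6, 2, 5, 3, 1, 7, 4, 0, 8,
      6, 1, 7, 3, 5, 2, 8, 6],
     [2, 5, 3, 1, 6, 8, 7, 0, 4, 8, 6, 2, 5, 3, 1, 7, 4, 0, 8, 6, 1, 7, 3, 5, 2, 8, 6, 0,
      4, 7, 1, 3, 5, 2, 6, 8, 4]] := by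
  apply cov_of_bChk
  show bChk 7 _ _ = true
  decide +kernel

lemma c9_8 : Cov [1, 2, 3, 4, 5, 6, 7]
    [[6, 2, 5, 3, 1, 7, 4, 0, 8, 6, 1, 7, 3, 5, 2, 8, 6, 0, 4, 7, 1, 3, 5, 2, 6, 8, 4, 0,
      7, 2, 5, 3, 1, 6, 8, 7],
     [6, 1, 7, 3, 5, 2, 8, 6, 0, 4, 7, 1, 3, 5, 2, 6, 8, 4, 0, 7, 2, 5, 3, 1, 6, 8, 7, 0,
      4, 8, 6, 2, 5, 3, 1, 7, 4],
     [4, 0, 7, 2, 5, 3, 1, 6, 8, 7, 0, 4, 8, 6, 2, 5, 3, 1, 7, 4, 0, 8, 6, 1, 7, 3, 5, 2,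
      8, 6],
     [7, 0, 4, 8, 6, 2, 5, 3, 1, 7, 4, 0, 8, 6, 1, 7, 3, 5, 2, 8, 6, 0, 4, 7, 1, 3, 5, 2,
      6, 8, 4]] := by
  apply cov_of_bChk
  show bChk 7 _ _ = true
  decide +kernel

lemma u9 : IsUniversal w9 := by
  refine universal_of_cov w9 [1, 2, 3, 4, 5, 6, 7, 8]
    [[4, 8, 6, 2, 5, 3, 1, 7, 4, 0, 8, 6, 1, 7, 3, 5, 2, 8, 6, 0, 4, 7, 1, 3, 5, 2, 6, 8,
      4, 0, 7, 2, 5, 3, 1, 6, 8, 7],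
     [8, 6, 1, 7, 3, 5, 2, 8, 6, 0, 4, 7, 1, 3, 5, 2, 6, 8, 4, 0, 7, 2, 5, 3, 1, 6, 8, 7,
      0, 4, 8, 6, 2, 5, 3, 1, 7, 4],
     [4, 7, 1, 3, 5, 2, 6, 8, 4, 0, 7, 2, 5, 3, 1, 6, 8, 7, 0, 4, 8, 6, 2, 5, 3, 1, 7, 4,
      0, 8, 6, 1, 7, 3, 5, 2, 8, 6],
     [7, 2, 5, 3, 1, 6, 8, 7, 0, 4, 8, 6, 2, 5, 3, 1, 7, 4, 0, 8, 6, 1, 7, 3, 5, 2, 8, 6,
      0, 4, 7, 1, 3, 5, 2, 6, 8, 4]]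
    (by decide) (by decide) (by decide +kernel) (cov_split _ _ (by decide) ?_)
  intro y hy
  fin_cases hy
  · exact ⟨_, c9_1, by decide +kernel⟩
  · exact ⟨_, c9_2, by decide +kernel⟩
  · exact ⟨_, c9_3, by decide +kernel⟩
  · exact ⟨_, c9_4, by decide +kernel⟩
  · exact ⟨_, c9_5, by decide +kernel⟩
  · exact ⟨_, c9_6, by decide +kernel⟩
  · exact ⟨_, c9_7, by decide +kernel⟩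
  · exact ⟨_, c9_8, by decide +kernel⟩

/-- For `n = 6, 8, 9` the least length `m(n)` of a universal cycle over `n` letters is
smaller than Gupta's bound `⌊n ^ 2 / 2⌋`. -/
theorem result : ∀ n ∈ ({6, 8, 9} : Finset ℕ), ∃ m, IsLeast (universalLengths n) m ∧
    m < n ^ 2 / 2 := by
  intro n hn
  have key : ∃ m ∈ universalLengths n, m < n ^ 2 / 2 := by
    simp only [Finset.mem_insert, Finset.mem_singleton] at hn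
    rcases hn with rfl | rfl | rfl
    · exact ⟨17, ⟨by norm_num, w6, rfl, u6⟩, by norm_num⟩
    · exact ⟨31, ⟨by norm_num, w8, rfl, u8⟩, by norm_num⟩
    · exact ⟨39, ⟨by norm_num, w9, rfl, u9⟩, by norm_num⟩
  obtain ⟨m, hm, hlt⟩ := key
  have hne : (universalLengths n).Nonempty := ⟨m, hm⟩
  exact ⟨sInf (universalLengths n), ⟨Nat.sInf_mem hne, fun k hk => Nat.sInf_le hk⟩,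
    (Nat.sInf_le hm).trans_lt hlt⟩

end Pool.Agent.Results.MP_71d90a_co.BelowGupta
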