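import Mathlib

namespace Pool.Agent.Results.MP_71d90a_co.GuptaBound

/-- A cycle over the alphabet `Fin n` is given by a finite word `c`, read cyclically; its rotations
are the words `c.rotate j` with `j < c.length`. It is universal if every permutation of the
alphabet, written out as a word of length `n`, is a (not necessarily contiguous) subsequence of at
least one rotation of `c`. -/
def IsUniversal {n : ℕ} (c : List (Fin n)) : Prop :=
  ∀ π : Equiv.Perm (Fin n), ∃ j < c.length, (List.ofFn π).Sublist (c.rotate j)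

/-- The set of all positive lengths of universal cycles over an alphabet with `n` letters. -/
def universalLengths (n : ℕ) : Set ℕ :=
  {m | 0 < m ∧ ∃ c : List (Fin n), c.length = m ∧ IsUniversal c}

/-- height of the zigzag walk `0, 1, ..., L, L - 1, ..., 1, 0, 1, ...` at time `t`. -/
def zz (L t : ℕ) : ℕ := if t % (2 * L) ≤ L then t % (2 * L) else 2 * L - t % (2 * L)

lemma zz_up {L : ℕ} (hL : 0 < L) (c Q : ℕ) (hQ : Q ≤ L) : zz L (2 * L * c + Q) = Q := by
  have h : (2 * L * c + Q) % (2 * L) = Q := by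
    rw [Nat.mul_add_mod, Nat.mod_eq_of_lt (by omega)]
  unfold zz
  rw [h, if_pos hQ]

lemma zz_down {L : ℕ} (hL : 0 < L) (c P : ℕ) (hP : P ≤ L) :
    zz L (2 * L * c + (2 * L - P)) = P := by
  rcases Nat.eq_zero_or_pos P with h0 | hpos
  · subst h0
    have h : (2 * L * c + (2 * L - 0)) % (2 * L) = 0 := by
      rw [Nat.mul_add_mod, Nat.sub_zero, Nat.mod_self]
    unfold zz
    rw [h, if_pos (Nat.zero_le _)]
  · have h : (2 * L * c + (2 * L - P)) % (2 * L) = 2 * L - P := by
      rw [Nat.mul_add_mod, Nat.mod_eq_of_lt (by omega)]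
    unfold zz
    rw [h]
    split_ifs with h1
    · omega
    · omega

/-- the zigzag word -/
def word (n L : ℕ) (hn : 0 < n) : List (Fin n) :=
  List.ofFn (fun t : Fin (2 * L) => (⟨zz L t % n, Nat.mod_lt _ hn⟩ : Fin n))

lemma zz_mod {L : ℕ} (t : ℕ) : zz L (t % (2 * L)) = zz L t := by
  unfold zz
  rw [Nat.mod_mod]

lemma embed {n L : ℕ} (hn : 0 < n) (hL : 0 < L) (π : Equiv.Perm (Fin n)) (t : ℕ → ℕ)
    (hmono : ∀ i j, i < j → j < n → t i < t j) (hspread : t (n - 1) < t 0 + 2 * L)
    (hval : ∀ k (hk : k < n), zz L (t k) % n = (π ⟨k, hk⟩ : ℕ)) :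
    ∃ j < (word n L hn).length, (List.ofFn π).Sublist ((word n L hn).rotate j) := by
  have hlen : (word n L hn).length = 2 * L := by simp [word]
  have ht0 : ∀ k, k < n → t 0 ≤ t k := by
    intro k hk
    rcases Nat.eq_zero_or_pos k with h | h
    · rw [h]
    · exact (hmono 0 k h hk).le
  have htn : ∀ k, k < n → t k < t 0 + 2 * L := by
    intro k hk
    rcases Nat.lt_or_ge k (n - 1) with h | h
    · exact (hmono k (n - 1) h (by omega)).trans hspread
    · have : k = n - 1 := by omega
      rw [this]; exact hspread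
  refine ⟨t 0 % (2 * L), by rw [hlen]; exact Nat.mod_lt _ (by omega), ?_⟩
  rw [List.sublist_iff_exists_fin_orderEmbedding_get_eq]
  have hl1 : (List.ofFn π).length = n := by simp
  have hl2 : ((word n L hn).rotate (t 0 % (2 * L))).length = 2 * L := by simp [word]
  refine ⟨OrderEmbedding.ofStrictMono
    (fun k : Fin (List.ofFn π).length => (⟨t k - t 0, by
      have h1 := htn k (by have := k.2; omega)
      have h2 := ht0 k (by have := k.2; omega)
      omega⟩ : Fin ((word n L hn).rotate (t 0 % (2 * L))).length)) ?_, ?_⟩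
  · intro i j hij
    have hj : (j : ℕ) < n := by have := j.2; omega
    have h1 := hmono i j hij hj
    have h2 := ht0 i (by have := i.2; omega)
    show t i - t 0 < t j - t 0
    omega
  · intro k
    have hk : (k : ℕ) < n := by have := k.2; omega
    have h2 := ht0 k hk
    have hmod : (t k - t 0 + t 0 % (2 * L)) % (2 * L) = t k % (2 * L) := by
      rw [Nat.add_mod_mod]
      congr 1
      omega
    simp only [List.get_eq_getElem, List.getElem_ofFn, List.getElem_rotate, word,
      List.length_ofFn, zz_mod]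
    apply Fin.ext
    show (π ⟨(k : ℕ), _⟩ : ℕ) = zz L (t k - t 0 + t 0 % (2 * L)) % n
    rw [← zz_mod, hmod, zz_mod]
    exact (hval k hk).symm

section comb

variable {n : ℕ}

/-- indicator of a cyclic ascent -/
def asc (s : ℕ → ℕ) (k : ℕ) : ℕ := if s k < s (k + 1) then 1 else 0

/-- number of ascents among the first `k` steps -/
def cnt (s : ℕ → ℕ) (k : ℕ) : ℕ := ∑ j ∈ Finset.range k, asc s j

lemma cnt_succ (s : ℕ → ℕ) (k : ℕ) : cnt s (k + 1) = cnt s k + asc s k := by
  unfold cnt
  rw [Finset.sum_range_succ]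

lemma cnt_add (s : ℕ → ℕ) (k l : ℕ) :
    cnt s (k + l) = cnt s k + ∑ j ∈ Finset.range l, asc s (k + j) := by
  induction l with
  | zero => simp
  | succ l ih => rw [← Nat.add_assoc, cnt_succ, ih, Finset.sum_range_succ, Nat.add_assoc]

lemma asc_le_one (s : ℕ → ℕ) (k : ℕ) : asc s k ≤ 1 := by
  unfold asc
  split_ifs <;> omega

lemma cnt_mono (s : ℕ → ℕ) {k l : ℕ} (h : k ≤ l) : cnt s k ≤ cnt s l := by
  obtain ⟨m, rfl⟩ := Nat.exists_eq_add_of_le h
  rw [cnt_add]
  omega

lemma asc_periodic {s : ℕ → ℕ} (hs : ∀ k, s (k + n) = s k) (k : ℕ) : asc s (k + n) = asc s k := by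
  unfold asc
  rw [hs, show k + n + 1 = (k + 1) + n by omega, hs]

lemma cnt_periodic {s : ℕ → ℕ} (hs : ∀ k, s (k + n) = s k) (k : ℕ) :
    cnt s (k + n) = cnt s k + cnt s n := by
  induction k with
  | zero => simp [cnt]
  | succ k ih =>
    rw [show k + 1 + n = (k + n) + 1 by omega, cnt_succ, ih, cnt_succ, asc_periodic hs]
    omega

lemma cnt_le (s : ℕ → ℕ) (k : ℕ) : cnt s k ≤ k := by
  induction k with
  | zero => simp [cnt]
  | succ k ih =>
    rw [cnt_succ]
    have := asc_le_one s k
    omega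

/-- double counting: windows of length `D` contain `A * D` ascents in total. -/
lemma sum_windows {s : ℕ → ℕ} (hs : ∀ k, s (k + n) = s k) (D : ℕ) :
    ∑ i ∈ Finset.range n, (∑ j ∈ Finset.range D, asc s (i + j)) = D * cnt s n := by
  rw [Finset.sum_comm]
  have h : ∀ j ∈ Finset.range D, ∑ i ∈ Finset.range n, asc s (i + j) = cnt s n := by
    intro j _
    have h1 := cnt_add s j n
    rw [cnt_periodic hs] at h1
    have h2 : ∑ i ∈ Finset.range n, asc s (i + j) = ∑ i ∈ Finset.range n, asc s (j + i) :=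
      Finset.sum_congr rfl (fun i _ => by rw [Nat.add_comm])
    omega
  rw [Finset.sum_congr rfl h, Finset.sum_const, Finset.card_range, smul_eq_mul]

/-- the averaging step: there is a good starting place. -/
lemma exists_good {s : ℕ → ℕ} (hn : 0 < n) (hs : ∀ k, s (k + n) = s k) (hlt : ∀ k, s k < n)
    (hinj : ∀ i j, i < n → j < n → s i = s j → i = j)
    (hsum : ∑ i ∈ Finset.range n, s i = ∑ i ∈ Finset.range n, i) :
    ∃ i < n, n * (cnt s (i + (n - cnt s n)) - cnt s i) + s i ≤ n ^ 2 / 4 := by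
  by_contra hcon
  push Not at hcon
  set D := n - cnt s n with hD
  set A := cnt s n with hA
  have hAn : A ≤ n := cnt_le s n
  set α : ℕ → ℕ := fun i => ∑ j ∈ Finset.range D, asc s (i + j) with hα
  have hα' : ∀ i, cnt s (i + D) - cnt s i = α i := by
    intro i
    rw [cnt_add]
    simp [hα]
  set v : ℕ → ℤ := fun i => ((n * α i + s i : ℕ) : ℤ) with hv
  have hvinj : Set.InjOn v (Finset.range n : Set ℕ) := by
    intro i hi j hj hij
    have hi' : i < n := by simpa using hi
    have hj' : j < n := by simpa using hj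
    have h1 : n * α i + s i = n * α j + s j := by
      have : ((n * α i + s i : ℕ) : ℤ) = ((n * α j + s j : ℕ) : ℤ) := hij
      exact_mod_cast this
    have h2 : (n * α i + s i) % n = (n * α j + s j) % n := by rw [h1]
    rw [Nat.mul_add_mod, Nat.mul_add_mod, Nat.mod_eq_of_lt (hlt i), Nat.mod_eq_of_lt (hlt j)] at h2
    exact hinj i j hi' hj' h2
  have hbound : ∀ x ∈ (Finset.range n).image v, ((n ^ 2 / 4 : ℕ) : ℤ) + 1 ≤ x := by
    intro x hx
    rw [Finset.mem_image] at hx
    obtain ⟨i, hi, rfl⟩ := hx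
    have h1 := hcon i (by simpa using hi)
    rw [hα' i] at h1
    have h2 : n ^ 2 / 4 + 1 ≤ n * α i + s i := h1
    show ((n ^ 2 / 4 : ℕ) : ℤ) + 1 ≤ ((n * α i + s i : ℕ) : ℤ)
    exact_mod_cast h2
  have hkey := Finset.sum_range_le_sum hbound
  rw [Finset.card_image_of_injOn hvinj, Finset.card_range, Finset.sum_image hvinj] at hkey
  have h1 : ∑ i ∈ Finset.range n, v i = ((n * (D * A) + ∑ i ∈ Finset.range n, i : ℕ) : ℤ) := by
    rw [← hsum, ← sum_windows hs D, Finset.mul_sum, ← Finset.sum_add_distrib, Nat.cast_sum]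
  have h2 : ∑ i ∈ Finset.range n, (((n ^ 2 / 4 : ℕ) : ℤ) + 1 + (i : ℤ))
      = ((n * (n ^ 2 / 4 + 1) + ∑ i ∈ Finset.range n, i : ℕ) : ℤ) := by
    rw [Finset.sum_add_distrib, Finset.sum_const, Finset.card_range]
    push_cast
    simp
  rw [h1, h2] at hkey
  have hkey' : n * (n ^ 2 / 4 + 1) ≤ n * (D * A) := by
    have : n * (n ^ 2 / 4 + 1) + ∑ i ∈ Finset.range n, i
        ≤ n * (D * A) + ∑ i ∈ Finset.range n, i := by exact_mod_cast hkey
    omega
  have hkey2 : n ^ 2 / 4 + 1 ≤ D * A := Nat.le_of_mul_le_mul_left hkey' hn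
  have hDA : D + A = n := by omega
  have h4 : 4 * (D * A) ≤ n ^ 2 := by
    have h5 : ((4 * (D * A) : ℕ) : ℤ) ≤ ((n ^ 2 : ℕ) : ℤ) := by
      rw [← hDA]
      push_cast
      nlinarith [sq_nonneg ((D : ℤ) - A)]
    exact_mod_cast h5
  omega

/-- the main combinatorial statement: times at which the letters are read. -/
lemma exists_times {s : ℕ → ℕ} (hs : ∀ k, s (k + n) = s k) (hlt : ∀ k, s k < n)
    (hne : ∀ k, s k ≠ s (k + 1)) {L i : ℕ} (hL : 0 < L) (hi : i < n)
    (hgood : n * (cnt s (i + (n - cnt s n)) - cnt s i) + s i ≤ L) :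
    ∃ t : ℕ → ℕ, (∀ j k, j < k → k < n → t j < t k) ∧ t (n - 1) < t 0 + 2 * L ∧
      ∀ k, k < n → zz L (t k) % n = s k := by
  have hAn : cnt s n ≤ n := cnt_le s n
  obtain ⟨D, hD⟩ : ∃ D, D = n - cnt s n := ⟨_, rfl⟩
  rw [← hD] at hgood
  obtain ⟨T, hT⟩ : ∃ T, T = n * (cnt s (i + D) - cnt s i) + s i := ⟨_, rfl⟩
  rw [← hT] at hgood
  -- heights on the way down and on the way up
  obtain ⟨P, hP⟩ : ∃ P : ℕ → ℕ, ∀ k, P k = n * (cnt s (i + D) - cnt s k) + s k :=
    ⟨_, fun _ => rfl⟩
  obtain ⟨Q, hQ⟩ : ∃ Q : ℕ → ℕ, ∀ k, Q k = n * ((k - (i + D)) - (cnt s k - cnt s (i + D))) + s k :=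
    ⟨_, fun _ => rfl⟩
  have hstep : ∀ k, (asc s k = 1 ∧ s k < s (k + 1)) ∨ (asc s k = 0 ∧ s (k + 1) < s k) := by
    intro k
    unfold asc
    have := hne k
    split_ifs with h
    · exact Or.inl ⟨rfl, h⟩
    · exact Or.inr ⟨rfl, by omega⟩
  have hPdec : ∀ k, i ≤ k → k < i + D → P (k + 1) < P k := by
    intro k hk1 hk2
    have h1 := cnt_succ s k
    have h2 : cnt s (k + 1) ≤ cnt s (i + D) := cnt_mono s (by omega)
    rw [hP, hP]
    rcases hstep k with ⟨ha, hb⟩ | ⟨ha, hb⟩
    · have h3 : cnt s (i + D) - cnt s k = (cnt s (i + D) - cnt s (k + 1)) + 1 := by omega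
      rw [h3, Nat.mul_add, Nat.mul_one]
      have := hlt (k + 1)
      omega
    · have h3 : cnt s (i + D) - cnt s k = cnt s (i + D) - cnt s (k + 1) := by omega
      rw [h3]
      omega
  have hQinc : ∀ k, i + D ≤ k → Q k < Q (k + 1) := by
    intro k hk1
    have h1 := cnt_succ s k
    have h2 : cnt s (i + D) ≤ cnt s k := cnt_mono s hk1
    have h4 : cnt s k - cnt s (i + D) ≤ k - (i + D) := by
      obtain ⟨m, hm⟩ := Nat.exists_eq_add_of_le hk1
      rw [hm, cnt_add]
      have : ∑ j ∈ Finset.range m, asc s (i + D + j) ≤ ∑ j ∈ Finset.range m, 1 :=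
        Finset.sum_le_sum (fun j _ => asc_le_one s _)
      simp at this
      omega
    rw [hQ, hQ]
    rcases hstep k with ⟨ha, hb⟩ | ⟨ha, hb⟩
    · have h3 : (k + 1 - (i + D)) - (cnt s (k + 1) - cnt s (i + D))
          = (k - (i + D)) - (cnt s k - cnt s (i + D)) := by omega
      rw [h3]
      omega
    · have h3 : (k + 1 - (i + D)) - (cnt s (k + 1) - cnt s (i + D))
          = ((k - (i + D)) - (cnt s k - cnt s (i + D))) + 1 := by omega
      rw [h3, Nat.mul_add, Nat.mul_one]
      have := hlt k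
      omega
  have hPT : P i = T := by rw [hP, hT]
  have hPle : ∀ m, m ≤ D → P (i + m) ≤ T := by
    intro m
    induction m with
    | zero => intro _; rw [Nat.add_zero, hPT]
    | succ m ih =>
      intro hm
      have h1 := ih (by omega)
      have h2 := hPdec (i + m) (by omega) (by omega)
      rw [← Nat.add_assoc]
      omega
  have hPend : P (i + D) = s (i + D) := by
    rw [hP]; simp
  have hQstart : Q (i + D) = s (i + D) := by
    rw [hQ]; simp
  have hQT : Q (i + n) = T := by
    rw [hQ, hT, cnt_periodic hs, hs]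
    have h1 : cnt s (i + D) ≤ cnt s (i + n) := cnt_mono s (by omega)
    rw [cnt_periodic hs] at h1
    have h2 : cnt s i ≤ cnt s (i + D) := cnt_mono s (by omega)
    have h3 : (i + n - (i + D)) - (cnt s i + cnt s n - cnt s (i + D))
        = cnt s (i + D) - cnt s i := by omega
    rw [h3]
  have hQle : ∀ m, m ≤ n - D → Q (i + n - m) ≤ T := by
    intro m
    induction m with
    | zero => intro _; rw [Nat.sub_zero, hQT]
    | succ m ih =>
      intro hm
      have h1 := ih (by omega)
      have h2 := hQinc (i + n - (m + 1)) (by omega)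
      rw [show i + n - (m + 1) + 1 = i + n - m by omega] at h2
      omega
  -- the time function on the window `[i, i + n]`
  obtain ⟨τ, hτ⟩ : ∃ τ : ℕ → ℕ, ∀ k, τ k = if k ≤ i + D then 2 * L - P k else 2 * L + Q k :=
    ⟨_, fun _ => rfl⟩
  have hPle' : ∀ k, i ≤ k → k ≤ i + D → P k ≤ T := by
    intro k h1 h2
    have := hPle (k - i) (by omega)
    rwa [show i + (k - i) = k by omega] at this
  have hQle' : ∀ k, i + D ≤ k → k ≤ i + n → Q k ≤ T := by
    intro k h1 h2
    have := hQle (i + n - k) (by omega)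
    rwa [show i + n - (i + n - k) = k by omega] at this
  have hτstep : ∀ k, i ≤ k → k < i + n → τ k < τ (k + 1) := by
    intro k h1 h2
    rw [hτ, hτ]
    rcases Nat.lt_trichotomy k (i + D) with h | h | h
    · rw [if_pos (by omega), if_pos (by omega)]
      have h3 := hPdec k h1 h
      have h4 := hPle' k h1 (by omega)
      omega
    · rw [if_pos (by omega), if_neg (by omega)]
      have h3 := hQinc k (by omega)
      rw [h, hPend]
      rw [h, hQstart] at h3
      have h5 := hlt (i + D)
      have h6 := hPle' (i + D) (by omega) le_rfl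
      rw [hPend] at h6
      omega
    · rw [if_neg (by omega), if_neg (by omega)]
      have h3 := hQinc k (by omega)
      omega
  have hτmono : ∀ m k, i ≤ k → k + m + 1 ≤ i + n → τ k < τ (k + m + 1) := by
    intro m
    induction m with
    | zero => intro k h1 h2; exact hτstep k h1 (by omega)
    | succ m ih =>
      intro k h1 h2
      have h3 := ih k h1 (by omega)
      have h4 := hτstep (k + m + 1) (by omega) (by omega)
      rw [show k + (m + 1) + 1 = k + m + 1 + 1 by omega]
      omega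
  have hτmono' : ∀ j k, i ≤ j → j < k → k ≤ i + n → τ j < τ k := by
    intro j k h1 h2 h3
    have := hτmono (k - j - 1) j h1 (by omega)
    rwa [show j + (k - j - 1) + 1 = k by omega] at this
  have hτi : τ i = 2 * L - T := by
    rw [hτ, if_pos (by omega), hPT]
  have hτn : τ (i + n) ≤ 2 * L + T := by
    rw [hτ]
    split_ifs with h
    · omega
    · rw [hQT]
  have hval1 : ∀ k, i ≤ k → k ≤ i + n → ∀ c, zz L (2 * L * c + τ k) % n = s k := by
    intro k h1 h2 c
    rw [hτ]
    split_ifs with h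
    · rw [zz_down hL c (P k) ((hPle' k h1 h).trans hgood), hP, Nat.mul_add_mod,
        Nat.mod_eq_of_lt (hlt k)]
    · rw [show 2 * L * c + (2 * L + Q k) = 2 * L * (c + 1) + Q k by ring,
        zz_up hL (c + 1) (Q k) ((hQle' k (by omega) h2).trans hgood), hQ, Nat.mul_add_mod,
        Nat.mod_eq_of_lt (hlt k)]
  refine ⟨fun k => if k < i then τ (k + n) else 2 * L + τ k, ?_, ?_, ?_⟩
  · intro j k hjk hk
    show (if j < i then τ (j + n) else 2 * L + τ j) < (if k < i then τ (k + n) else 2 * L + τ k)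
    rcases Nat.lt_or_ge k i with h | h
    · rw [if_pos (by omega), if_pos h]
      exact hτmono' _ _ (by omega) (by omega) (by omega)
    · rw [if_neg (Nat.not_lt.mpr h)]
      rcases Nat.lt_or_ge j i with h' | h'
      · rw [if_pos h']
        have h1 := hτmono' (j + n) (i + n) (by omega) (by omega) le_rfl
        have h2 : τ i ≤ τ k := by
          rcases Nat.eq_or_lt_of_le h with h3 | h3
          · rw [h3]
          · exact (hτmono' i k le_rfl h3 (by omega)).le
        omega
      · rw [if_neg (Nat.not_lt.mpr h')]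
        have := hτmono' j k h' hjk (by omega)
        omega
  · show (if n - 1 < i then τ (n - 1 + n) else 2 * L + τ (n - 1))
      < (if 0 < i then τ (0 + n) else 2 * L + τ 0) + 2 * L
    rw [if_neg (by omega)]
    rcases Nat.eq_zero_or_pos i with h | h
    · subst h
      rw [if_neg (by omega)]
      have h1 := hτmono' (n - 1) (0 + n) (by omega) (by omega) le_rfl
      omega
    · rw [if_pos h]
      have h1 := hτmono' (n - 1) (0 + n) (by omega) (by omega) (by omega)
      omega
  · intro k hk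
    show zz L (if k < i then τ (k + n) else 2 * L + τ k) % n = s k
    split_ifs with h
    · have := hval1 (k + n) (by omega) (by omega) 0
      rw [hs] at this
      simpa using this
    · have := hval1 k (by omega) (by omega) 1
      simpa using this

end comb

/-- the zigzag word of length `2 * (n ^ 2 / 4)` is universal. -/
lemma word_universal {n : ℕ} (hn : 2 ≤ n) : IsUniversal (word n (n ^ 2 / 4) (by omega)) := by
  intro π
  have hn0 : 0 < n := by omega
  have hL : 0 < n ^ 2 / 4 := by
    have : 4 ≤ n ^ 2 := by nlinarith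
    omega
  obtain ⟨s, hsdef⟩ : ∃ s : ℕ → ℕ, ∀ k, s k = (π ⟨k % n, Nat.mod_lt _ hn0⟩ : ℕ) :=
    ⟨_, fun _ => rfl⟩
  have hs : ∀ k, s (k + n) = s k := by
    intro k
    rw [hsdef, hsdef]
    simp
  have hlt : ∀ k, s k < n := by
    intro k
    rw [hsdef]
    exact (π _).2
  have hinj : ∀ i j, i < n → j < n → s i = s j → i = j := by
    intro i j hi hj h
    rw [hsdef, hsdef] at h
    have h1 := π.injective (Fin.ext h)
    have h2 := congrArg Fin.val h1
    simpa [Nat.mod_eq_of_lt hi, Nat.mod_eq_of_lt hj] using h2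
  have hne : ∀ k, s k ≠ s (k + 1) := by
    intro k h
    rw [hsdef, hsdef] at h
    have h1 := π.injective (Fin.ext h)
    have h2 : k % n = (k + 1) % n := congrArg Fin.val h1
    have h3 : (k + 1) % n = (k % n + 1) % n := by simp
    rcases Nat.lt_or_ge (k % n + 1) n with h4 | h4
    · rw [Nat.mod_eq_of_lt h4] at h3
      omega
    · have h5 : k % n + 1 = n := by
        have := Nat.mod_lt k hn0
        omega
      rw [h5, Nat.mod_self] at h3
      omega
  have hsum : ∑ i ∈ Finset.range n, s i = ∑ i ∈ Finset.range n, i := by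
    have h1 : ∑ i ∈ Finset.range n, s i = ∑ i : Fin n, (π i : ℕ) := by
      rw [← Fin.sum_univ_eq_sum_range]
      refine Finset.sum_congr rfl (fun i _ => ?_)
      rw [hsdef]
      congr 2
      exact Fin.ext (Nat.mod_eq_of_lt i.2)
    rw [h1, Equiv.sum_comp π (fun i : Fin n => (i : ℕ)), ← Fin.sum_univ_eq_sum_range (fun i => i) n]
  obtain ⟨i, hi, hgood⟩ := exists_good hn0 hs hlt hinj hsum
  obtain ⟨t, ht1, ht2, ht3⟩ := exists_times hs hlt hne hL hi hgood
  refine embed hn0 hL π t ht1 ht2 ?_
  intro k hk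
  rw [ht3 k hk, hsdef]
  congr 2
  exact Fin.ext (Nat.mod_eq_of_lt hk)

/-- **Gupta's conjecture.** For every `n ≥ 2` the least length `m(n)` of a universal cycle over an
alphabet with `n` letters exists and is at most `⌊n ^ 2 / 2⌋`. -/
theorem result : ∀ n : ℕ, 2 ≤ n → ∃ m : ℕ, IsLeast (universalLengths n) m ∧ m ≤ n ^ 2 / 2 := by
  intro n hn
  have hL : 0 < n ^ 2 / 4 := by
    have : 4 ≤ n ^ 2 := by nlinarith
    omega
  have hmem : 2 * (n ^ 2 / 4) ∈ universalLengths n :=
    ⟨by omega, word n (n ^ 2 / 4) (by omega), by simp [word], word_universal hn⟩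
  refine ⟨sInf (universalLengths n), ⟨Nat.sInf_mem ⟨_, hmem⟩, fun m hm => Nat.sInf_le hm⟩, ?_⟩
  have h := Nat.sInf_le hmem
  omega

end Pool.Agent.Results.MP_71d90a_co.GuptaBound
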