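import Mathlib
import Pool.Agent.Lib.MP_71d90a_co.Defs
import Pool.Agent.Lib.MP_71d90a_co.Lower3

namespace Pool.Agent.Results.MP_71d90a_co.SharpLowerBound

open Pool.Agent.Lib.MP_71d90a_co

/-- For every `n ≥ 2`, every universal cycle over `n` symbols has length at least
`n ^ 2 / 2 - 9 √(n ^ 3 log n)`; in particular this holds for the least length `m(n)`. -/
theorem result : ∀ n : ℕ, 2 ≤ n → ∀ m ∈ universalLengths n,
    (n : ℝ) ^ 2 / 2 - 9 * Real.sqrt ((n : ℝ) ^ 3 * Real.log n) ≤ m := by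
  intro n hn m hm
  obtain ⟨_, w, hw, hu⟩ := hm
  rw [← hw]
  exact lower_bound hn w hu

end Pool.Agent.Results.MP_71d90a_co.SharpLowerBound
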